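import Mathlib
import Pool.Agent.Helper916.SymplecticSym
import Pool.Agent.Helper916.QuadPO
import Pool.Agent.Helper916.SymBilReduce

set_option autoImplicit false

namespace Pool.Agent.Results.MP_dbbb5c_an.SymmetricPolygons

open Pool.Agent.Helper916.SymplecticSym

/-- Every convex polygon `P` (the hull of the finite set `S`, with nonempty interior) of one of the
following four kinds has a periodic symplectic billiard orbit:
(1) `S` has at most four points;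
(2) all sides of `P` are parallel to one of three pairwise non-parallel vectors `u, v, w`;
(3) some affine map `g` of finite order with `g ∘ g ≠ id` maps `P` into itself;
(4) `P` is symmetric about a point `c` and no line from `c` to a vertex is parallel to a side.
The conclusion is the one of the frozen statement. -/
theorem result : ∀ S : Finset (ℝ × ℝ),
    (interior (convexHull ℝ (↑S : Set (ℝ × ℝ)))).Nonempty →
    (S.card ≤ 4 ∨
      (∃ u v w : ℝ × ℝ, u.1 * v.2 - u.2 * v.1 ≠ 0 ∧ v.1 * w.2 - v.2 * w.1 ≠ 0 ∧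
        u.1 * w.2 - u.2 * w.1 ≠ 0 ∧ ∀ p q : ℝ × ℝ, p ≠ q →
          segment ℝ p q ⊆ frontier (convexHull ℝ (↑S : Set (ℝ × ℝ))) →
          u.1 * (p - q).2 - u.2 * (p - q).1 = 0 ∨ v.1 * (p - q).2 - v.2 * (p - q).1 = 0 ∨
            w.1 * (p - q).2 - w.2 * (p - q).1 = 0) ∨
      (∃ g : (ℝ × ℝ) →ᵃ[ℝ] (ℝ × ℝ), (∃ n : ℕ, 0 < n ∧ ∀ p, g^[n] p = p) ∧ (∃ p, g (g p) ≠ p) ∧
        ∀ p ∈ convexHull ℝ (↑S : Set (ℝ × ℝ)), g p ∈ convexHull ℝ (↑S : Set (ℝ × ℝ))) ∨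
      (∃ c : ℝ × ℝ,
        (∀ p ∈ convexHull ℝ (↑S : Set (ℝ × ℝ)), c + c - p ∈ convexHull ℝ (↑S : Set (ℝ × ℝ))) ∧
        ∀ v ∈ Set.extremePoints ℝ (convexHull ℝ (↑S : Set (ℝ × ℝ))), ∀ p q : ℝ × ℝ, p ≠ q →
          segment ℝ p q ⊆ frontier (convexHull ℝ (↑S : Set (ℝ × ℝ))) →
          (v - c).1 * (p - q).2 - (v - c).2 * (p - q).1 ≠ 0)) →
    ∃ n : ℕ, 0 < n ∧ ∃ x : ℕ → ℝ × ℝ, (∀ i, x (i + n) = x i) ∧
      ∀ i : ℕ,
        x i ∈ frontier (convexHull ℝ (↑S : Set (ℝ × ℝ))) ∧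
        x i ∉ Set.extremePoints ℝ (convexHull ℝ (↑S : Set (ℝ × ℝ))) ∧
        x (i + 2) ≠ x i ∧
        ∃ a b : ℝ, (a ≠ 0 ∨ b ≠ 0) ∧
          a * ((x (i + 2)).1 - (x i).1) + b * ((x (i + 2)).2 - (x i).2) = 0 ∧
          (∀ p ∈ convexHull ℝ (↑S : Set (ℝ × ℝ)),
              a * p.1 + b * p.2 ≤ a * (x (i + 1)).1 + b * (x (i + 1)).2) ∧
          a * (x i).1 + b * (x i).2 < a * (x (i + 1)).1 + b * (x (i + 1)).2 ∧
          ∃ p ∈ convexHull ℝ (↑S : Set (ℝ × ℝ)),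
              a * p.1 + b * p.2 < a * (x i).1 + b * (x i).2 := by
  intro S hint hS
  rcases hS with h | ⟨u, v, w, h1, h2, h3, h4⟩ | ⟨g, ⟨n, hn, hgn⟩, hg2, hK⟩ | ⟨c, hcs, hgen⟩
  · exact Pool.Agent.Helper916.QuadPO.result S h hint
  · exact Pool.Agent.Helper916.SymBil.dir_po S hint u v w h1 h2 h3 h4
  · exact aff_po S g n hn hgn hg2 hK hint
  · exact cs_po S c hint hcs hgen

end Pool.Agent.Results.MP_dbbb5c_an.SymmetricPolygons
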